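import Pool.Agent.H840.MX.Gen

/-!
# `MP_afef76_ag`: multiplier ideals of eleven general points on a plane cubic

Let `Z = {P 0, …, P 10}` be eleven points of a smooth plane cubic `F = 0` in general position
(`IsGeneral`: the quartics through `Z` have exactly one further common zero `p`, so the degree
envelope `Z_4` is a set of twelve points). For all `c > 0` the multiplier ideal `𝓙 (I (Z) ^ c)` is the
intersection of three kinds of valuation ideals: `∑_m F ^ m 𝔪 ^ (⌊4 c⌋ - 3 - 4 m)`, the powers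
`I (P i) ^ (⌊c⌋ - 1)`, and `∑_{a, b} T ^ a I (p) ^ b 𝔪 ^ (⌊5 c⌋ - 5 - 3 a - 2 b)`, where `T = 0` is the
tangent line of the cubic at the twelfth point `p`. The jumping numbers are the `c ≥ 1` with
`4 c ∈ ℤ` and the `c ≥ 11 / 5` with `5 c ∈ ℤ`. The eleven points of a smooth cubic are in general
position outside of a proper Zariski closed subset.
-/

set_option autoImplicit false

namespace Pool.Agent.Results.MP_afef76_ag.MultiplierIdeals

open MvPolynomial Pool.Agent.T2H40.MI Pool.Agent.H840.MX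

theorem result (F : MvPolynomial (Fin 3) ℂ) (hF : SmoothCubic F) :
    (∃ Φ : MvPolynomial (Fin 11 × Fin 3) ℂ,
      (∃ P : Fin 11 → Fin 3 → ℂ, (∀ i, eval (P i) F = 0) ∧ eval (fun x => P x.1 x.2) Φ ≠ 0) ∧
      ∀ P : Fin 11 → Fin 3 → ℂ, (∀ i, eval (P i) F = 0) → eval (fun x => P x.1 x.2) Φ ≠ 0 →
        ∃ p, IsGeneral F P p) ∧
    ∀ (P : Fin 11 → Fin 3 → ℂ) (p : Fin 3 → ℂ), IsGeneral F P p →
      (∀ c : ℝ, 0 < c → multiplierIdeal (idealOf (Set.range P)) c =
        ↑(cubicIdeal F (⌊4 * c⌋₊ - 3) ⊓ (⨅ i, idealOf {P i} ^ (⌊c⌋₊ - 1)) ⊓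
          tangentIdeal F p (⌊5 * c⌋₊ - 5))) ∧
      jumpingNumbers (idealOf (Set.range P)) =
        {c : ℝ | 1 ≤ c ∧ ∃ n : ℕ, 4 * c = n} ∪ {c : ℝ | 11 / 5 ≤ c ∧ ∃ n : ℕ, 5 * c = n} :=
  ⟨general hF, fun _ _ h => ⟨fun _ hc => multiplier h hc, jumping_numbers h⟩⟩

end Pool.Agent.Results.MP_afef76_ag.MultiplierIdeals
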